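import Pool.Agent.Helper26.KN.Goals

/-! Packet T3: values of the three-terminal functional. -/

namespace KN.PkT3

open Finset PowerSeries KN Pool.Agent.Helper97.RCK

theorem S4 (A B C D : PowerSeries ℝ) (N : ℕ) :
    coeff N (A * (B * (C * D))) =
      ∑ x ∈ antidiagonal N, ∑ y ∈ antidiagonal x.2, ∑ z ∈ antidiagonal y.2,
        coeff x.1 A * (coeff y.1 B * (coeff z.1 C * coeff z.2 D)) := by
  rw [coeff_mul]
  refine Finset.sum_congr rfl fun x _ => ?_
  rw [coeff_mul, Finset.mul_sum]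
  refine Finset.sum_congr rfl fun y _ => ?_
  rw [coeff_mul, Finset.mul_sum, Finset.mul_sum]

theorem T3_prod {H Z : PowerSeries ℝ} {N : ℕ} {u v t : ℕ → ℝ} {U V T : PowerSeries ℝ}
    (hU : ∀ a, coeff a U = coeff a H * u a) (hV : ∀ a, coeff a V = coeff a H * v a)
    (hT : ∀ a, coeff a T = coeff a H * t a) :
    T3 H Z N (fun a b c => u a * v b * t c) = coeff N (Z * (U * (V * T))) := by
  rw [S4]
  unfold T3
  refine Finset.sum_congr rfl fun x _ => Finset.sum_congr rfl fun y _ =>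
    Finset.sum_congr rfl fun z _ => ?_
  rw [hU, hV, hT]
  ring

theorem T3_add (H Z : PowerSeries ℝ) (N : ℕ) (f g : ℕ → ℕ → ℕ → ℝ) :
    T3 H Z N (fun a b c => f a b c + g a b c) = T3 H Z N f + T3 H Z N g := by
  unfold T3
  simp only [mul_add, Finset.sum_add_distrib]

theorem T3_smul (H Z : PowerSeries ℝ) (N : ℕ) (k : ℝ) (f : ℕ → ℕ → ℕ → ℝ) :
    T3 H Z N (fun a b c => k * f a b c) = k * T3 H Z N f := by
  unfold T3
  simp only [Finset.mul_sum]
  refine Finset.sum_congr rfl fun x _ => Finset.sum_congr rfl fun y _ =>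
    Finset.sum_congr rfl fun z _ => ?_
  ring

theorem coeff_up (lam : ℝ) (G : PowerSeries ℝ) (a : ℕ) :
    coeff a (up lam G) = lam ^ (a + 1) * coeff a G := by
  unfold up
  rw [coeff_C_mul, coeff_rescale]
  ring

theorem d_up (lam : ℝ) (H : PowerSeries ℝ) (h : HP lam H) :
    d⁄dX ℝ (up lam H) = up lam H * (up lam (up lam H) - up lam H) := by
  have h1 : d⁄dX ℝ (up lam H) = C lam * up lam (d⁄dX ℝ H) := by
    ext n
    rw [coeff_derivative, coeff_up, coeff_C_mul, coeff_up, coeff_derivative]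
    ring
  rw [h1, h.2]
  unfold up
  rw [map_mul, map_sub]
  ring

theorem d_sub' (F G : PowerSeries ℝ) : d⁄dX ℝ (F - G) = d⁄dX ℝ F - d⁄dX ℝ G := map_sub _ _ _

theorem dd (lam : ℝ) (H : PowerSeries ℝ) (h : HP lam H) :
    d⁄dX ℝ (d⁄dX ℝ H) = H * (up lam H * up lam (up lam H)) - 3 * (H * (H * up lam H))
      + 2 * (H * (H * H)) := by
  rw [h.2, Derivation.leibniz, d_sub', d_up lam H h, h.2]
  simp only [smul_eq_mul]
  ring

theorem t3 : G_T3 := by
  intro lam q H Z hH hZ N
  have c1 : ∀ a, coeff a H = coeff a H * (fun _ : ℕ => (1:ℝ)) a := by intro a; simp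
  have cE : ∀ a, coeff a (up lam H - H) = coeff a H * ee lam a := by
    intro a
    rw [map_sub, coeff_up]
    unfold ee
    ring
  have cP : ∀ a, coeff a (up lam H) = coeff a H * (fun a : ℕ => lam ^ (a + 1)) a := by
    intro a
    rw [coeff_up]
    ring
  have cP2 : ∀ a, coeff a (up lam (up lam H)) = coeff a H * (fun a : ℕ => lam ^ (a + 1) * lam ^ (a + 1)) a := by
    intro a
    rw [coeff_up, coeff_up]
    ring
  have cD : ∀ a, coeff a (X * d⁄dX ℝ H) = coeff a H * (fun a : ℕ => (a : ℝ)) a := by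
    intro a
    cases a with
    | zero => simp
    | succ n =>
      rw [coeff_succ_X_mul, coeff_derivative]
      push_cast
      ring
  have cDZ : ∀ a, coeff a (X * d⁄dX ℝ Z) = coeff a Z * (a : ℝ) := by
    intro a
    cases a with
    | zero => simp
    | succ n =>
      rw [coeff_succ_X_mul, coeff_derivative]
      push_cast
      ring
  have e2 : T3 H Z N (fun a b c => ee lam a + ee lam b + ee lam c) = 3 * be lam H Z N := by
    have h1 : (fun a b c : ℕ => ee lam a + ee lam b + ee lam c) =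
        fun a b c => (ee lam a * (fun _ : ℕ => (1:ℝ)) b * (fun _ : ℕ => (1:ℝ)) c +
          (fun _ : ℕ => (1:ℝ)) a * ee lam b * (fun _ : ℕ => (1:ℝ)) c) +
          (fun _ : ℕ => (1:ℝ)) a * (fun _ : ℕ => (1:ℝ)) b * ee lam c := by
      funext a b c
      simp
    rw [h1, T3_add, T3_add, T3_prod cE c1 c1, T3_prod c1 cE c1, T3_prod c1 c1 cE]
    unfold be
    have a1 : Z * ((up lam H - H) * (H * H)) = H ^ 2 * (up lam H - H) * Z := by ring
    have a2 : Z * (H * ((up lam H - H) * H)) = H ^ 2 * (up lam H - H) * Z := by ring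
    have a3 : Z * (H * (H * (up lam H - H))) = H ^ 2 * (up lam H - H) * Z := by ring
    rw [a1, a2, a3]
    ring
  have e4 : T3 H Z N (fun a b c => (a + b + c : ℝ)) = mu lam H Z N := by
    have h1 : (fun a b c : ℕ => ((a + b + c : ℝ))) =
        fun a b c => ((fun a : ℕ => (a : ℝ)) a * (fun _ : ℕ => (1:ℝ)) b * (fun _ : ℕ => (1:ℝ)) c +
          (fun _ : ℕ => (1:ℝ)) a * (fun a : ℕ => (a : ℝ)) b * (fun _ : ℕ => (1:ℝ)) c) +
          (fun _ : ℕ => (1:ℝ)) a * (fun _ : ℕ => (1:ℝ)) b * (fun a : ℕ => (a : ℝ)) c := by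
      funext a b c
      simp
    rw [h1, T3_add, T3_add, T3_prod cD c1 c1, T3_prod c1 cD c1, T3_prod c1 c1 cD]
    unfold mu
    rw [hH.2]
    have a1 : Z * (X * (H * (up lam H - H)) * (H * H)) = X * (H ^ 3 * (up lam H - H)) * Z := by ring
    have a2 : Z * (H * (X * (H * (up lam H - H)) * H)) = X * (H ^ 3 * (up lam H - H)) * Z := by ring
    have a3 : Z * (H * (H * (X * (H * (up lam H - H))))) = X * (H ^ 3 * (up lam H - H)) * Z := by ring
    rw [a1, a2, a3]
    ring
  refine ⟨?_, e2, ?_, e4, ?_⟩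
  · have h1 : (fun _ _ _ : ℕ => (1:ℝ)) =
        fun a b c => (fun _ : ℕ => (1:ℝ)) a * (fun _ : ℕ => (1:ℝ)) b * (fun _ : ℕ => (1:ℝ)) c := by
      funext a b c
      simp
    rw [h1, T3_prod c1 c1 c1]
    unfold ga
    congr 1
    ring
  · have h1 : (fun a b c : ℕ => sg (ee lam a) (ee lam b) (ee lam c)) =
        fun a b c => (1 / 6 : ℝ) * (((((
            (fun a : ℕ => lam ^ (a + 1) * lam ^ (a + 1)) a * (fun a : ℕ => lam ^ (a + 1)) b *
              (fun _ : ℕ => (1:ℝ)) c +
            (fun a : ℕ => lam ^ (a + 1) * lam ^ (a + 1)) a * (fun _ : ℕ => (1:ℝ)) b *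
              (fun a : ℕ => lam ^ (a + 1)) c) +
            (fun a : ℕ => lam ^ (a + 1)) a * (fun a : ℕ => lam ^ (a + 1) * lam ^ (a + 1)) b *
              (fun _ : ℕ => (1:ℝ)) c) +
            (fun _ : ℕ => (1:ℝ)) a * (fun a : ℕ => lam ^ (a + 1) * lam ^ (a + 1)) b *
              (fun a : ℕ => lam ^ (a + 1)) c) +
            (fun a : ℕ => lam ^ (a + 1)) a * (fun _ : ℕ => (1:ℝ)) b *
              (fun a : ℕ => lam ^ (a + 1) * lam ^ (a + 1)) c) +
            (fun _ : ℕ => (1:ℝ)) a * (fun a : ℕ => lam ^ (a + 1)) b *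
              (fun a : ℕ => lam ^ (a + 1) * lam ^ (a + 1)) c) +
          ((-1 : ℝ) * (((fun a : ℕ => lam ^ (a + 1)) a * (fun _ : ℕ => (1:ℝ)) b *
              (fun _ : ℕ => (1:ℝ)) c +
            (fun _ : ℕ => (1:ℝ)) a * (fun a : ℕ => lam ^ (a + 1)) b * (fun _ : ℕ => (1:ℝ)) c) +
            (fun _ : ℕ => (1:ℝ)) a * (fun _ : ℕ => (1:ℝ)) b * (fun a : ℕ => lam ^ (a + 1)) c) +
          (2 : ℝ) * ((fun _ : ℕ => (1:ℝ)) a * (fun _ : ℕ => (1:ℝ)) b * (fun _ : ℕ => (1:ℝ)) c)) := by
      funext a b c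
      unfold sg ee
      ring
    rw [h1]
    rw [T3_add, T3_add, T3_smul, T3_smul, T3_smul, T3_add, T3_add, T3_add, T3_add, T3_add, T3_add,
      T3_add, T3_prod cP2 cP c1, T3_prod cP2 c1 cP, T3_prod cP cP2 c1, T3_prod c1 cP2 cP,
      T3_prod cP c1 cP2, T3_prod c1 cP cP2, T3_prod cP c1 c1, T3_prod c1 cP c1, T3_prod c1 c1 cP,
      T3_prod c1 c1 c1]
    unfold al
    rw [dd lam H hH]
    have k : (H * (up lam H * up lam (up lam H)) - 3 * (H * (H * up lam H))
      + 2 * (H * (H * H))) * Z = Z * (H * (up lam H * up lam (up lam H)))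
        - C (3:ℝ) * (Z * (H * (H * up lam H))) + C (2:ℝ) * (Z * (H * (H * H))) := by
      have h3 : (C (3:ℝ) : PowerSeries ℝ) = 3 := map_ofNat _ 3
      have h2 : (C (2:ℝ) : PowerSeries ℝ) = 2 := map_ofNat _ 2
      rw [h3, h2]
      ring
    rw [k, map_add, map_sub, coeff_C_mul, coeff_C_mul]
    have b1 : Z * (up lam (up lam H) * (up lam H * H)) = Z * (H * (up lam H * up lam (up lam H))) := by ring
    have b2 : Z * (up lam (up lam H) * (H * up lam H)) = Z * (H * (up lam H * up lam (up lam H))) := by ring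
    have b3 : Z * (up lam H * (up lam (up lam H) * H)) = Z * (H * (up lam H * up lam (up lam H))) := by ring
    have b4 : Z * (H * (up lam (up lam H) * up lam H)) = Z * (H * (up lam H * up lam (up lam H))) := by ring
    have b5 : Z * (up lam H * (H * up lam (up lam H))) = Z * (H * (up lam H * up lam (up lam H))) := by ring
    have b7 : Z * (up lam H * (H * H)) = Z * (H * (H * up lam H)) := by ring
    have b8 : Z * (H * (up lam H * H)) = Z * (H * (H * up lam H)) := by ring
    rw [b1, b2, b3, b4, b5, b7, b8]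
    ring
  · -- (5)
    have hR : T3 H Z N (fun a b c => (a + b + c : ℝ) * (ee lam a + ee lam b + ee lam c)) +
        3 * (q * coeff N (X * (H ^ 3 * (up lam H - H)) * Z)) =
        N * T3 H Z N (fun a b c => ee lam a + ee lam b + ee lam c) := by
      have hZ2 : X * d⁄dX ℝ Z = C q * (X * (H * Z)) := by rw [hZ.2]; ring
      have r1 : q * coeff N (X * (H ^ 3 * (up lam H - H)) * Z) =
          coeff N ((X * d⁄dX ℝ Z) * ((up lam H - H) * (H * H))) := by
        rw [hZ2, ← coeff_C_mul]; congr 1; ring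
      have r2 : q * coeff N (X * (H ^ 3 * (up lam H - H)) * Z) =
          coeff N ((X * d⁄dX ℝ Z) * (H * ((up lam H - H) * H))) := by
        rw [hZ2, ← coeff_C_mul]; congr 1; ring
      have r3 : q * coeff N (X * (H ^ 3 * (up lam H - H)) * Z) =
          coeff N ((X * d⁄dX ℝ Z) * (H * (H * (up lam H - H)))) := by
        rw [hZ2, ← coeff_C_mul]; congr 1; ring
      have r4 : 3 * (q * coeff N (X * (H ^ 3 * (up lam H - H)) * Z)) =
          coeff N ((X * d⁄dX ℝ Z) * ((up lam H - H) * (H * H))) +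
          coeff N ((X * d⁄dX ℝ Z) * (H * ((up lam H - H) * H))) +
          coeff N ((X * d⁄dX ℝ Z) * (H * (H * (up lam H - H)))) := by
        rw [← r1, ← r2, ← r3]; ring
      rw [r4, S4, S4, S4]
      unfold T3
      simp only [Finset.mul_sum, ← Finset.sum_add_distrib]
      refine Finset.sum_congr rfl fun x hx => Finset.sum_congr rfl fun y hy =>
        Finset.sum_congr rfl fun z hz => ?_
      rw [cDZ, cE, cE, cE]
      rw [HasAntidiagonal.mem_antidiagonal] at hx hy hz
      have hN : (N : ℝ) = (x.1 : ℝ) + ((y.1 : ℝ) + ((z.1 : ℝ) + (z.2 : ℝ))) := by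
        rw [← hx, ← hy, ← hz]; push_cast; ring
      rw [hN]
      ring
    rw [e2] at hR
    unfold mu
    linarith
end KN.PkT3
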